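import Mathlib
import Pool.Agent.N54.MS.Near

set_option autoImplicit false

/-!
# All numbers of general points at once, and near-uniform multiplicities, along almost all sequences with a real parameter

Let `D` be any set of natural numbers with at least `N ^ (1 - ε)` members in `(N, 2 N]` for every `ε > 0` and all large `N`
(`Many`), for instance all integers or all primes. Let `g` be any real sequence with `g(t + 1) - g(t) ≥ t ^ (ρ - 1)` for large `t`, where
`0 < ρ ≤ 1` (for instance `t`, `t ²`, `√t`, `t log t`, the `t`-th prime, `2 ^ t`, `t !`), and `c` any real sequence. Then for almost all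
real `ξ` with `ξ g(t) + c(t) ≥ 1` for large `t` the following holds for the multiplicities `m = ⌊ξ g(t) + c(t)⌋`, `t ∈ D`. The same is true
for almost all `ξ > 1` and `m = ⌊ξ ^ g(t) + c(t)⌋`, `g(t)` increasing integers, and for almost all members of all families of twice
continuously differentiable functions whose derivatives are separated (`Spread`). The sequences can grow arbitrarily fast.

(1) For at least the proportion `1 / 10000 ^ 22` of the members `t` of `D` in `(N, 2 N]`, `N` large: for EVERY number `n ≥ 10` of points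
and EVERY degree `d` the scheme of `n` general points of multiplicity `m` imposes maximal conditions in degree `d`.

(2) For every `n ≥ 10`, `δ > 0` and `N` large, for at most the proportion `bad n + δ` of the members `t` of `D` in `(N, 2 N]` one of the
schemes of `n` general points with the multiplicities `m`, `m + 1` and the sum of the multiplicities `⌊x(t)⌋` does not have the property; `bad n < 1`, `bad n = 0` if `n` is a
square, `bad 10 < 0.163`.

Proof. The plane systems are those of helper141 (`Pool.Agent.N141.SG`): a multiplicity `m` is good for all numbers of points if the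
numbers `m √r` lie in certain arcs modulo one for 20 radicands `r`. A second moment argument over the parameter (after helper668's
one-dimensional metric theorem) shows that for almost all `ξ` the exponential sums of `γ x(t)`, `x(t) = ξ g(t) + c(t)`, over the members
of `D` in `(N, 2 N]` are at most `N ^ (1 - η)` for every algebraic number `γ ≠ 0` (`Pool.Agent.N54.MS`), and the square roots of the
radicands are linearly independent over `ℚ`.
-/

namespace Pool.Agent.Results.MP_1dafdd_ag.MetricMultiplicities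

open MvPolynomial Filter MeasureTheory

/-- Forms of degree `d` vanishing to order at least `w i` at the points `(P i 0 : P i 1 : 1)`. -/
noncomputable def forms {n : ℕ} (P : Fin n → Fin 2 → ℂ) (d : ℕ) (w : Fin n → ℕ) :
    Submodule ℂ (MvPolynomial (Fin 3) ℂ) :=
  homogeneousSubmodule (Fin 3) ℂ d ⊓
    Submodule.restrictScalars ℂ
      (⨅ i : Fin n, (Ideal.span {X 0 - C (P i 0) * X 2, X 1 - C (P i 1) * X 2} :
        Ideal (MvPolynomial (Fin 3) ℂ)) ^ (w i))

/-- The scheme of the points `P i` with the multiplicities `w i` imposes maximal conditions in the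
degree `d`. -/
def Imposes {n : ℕ} (P : Fin n → Fin 2 → ℂ) (d : ℕ) (w : Fin n → ℕ) : Prop :=
  (Module.finrank ℂ ↥(forms P d w) : ℤ) =
    max 0 (((d + 2).choose 2 : ℤ) - ∑ i, ((w i + 1).choose 2 : ℤ))

/-- For general points (one nonempty open set for all degrees) the scheme with the multiplicities `w`
imposes maximal conditions in every degree. -/
def Maximal {n : ℕ} (w : Fin n → ℕ) : Prop :=
  ∃ F : MvPolynomial (Fin n × Fin 2) ℂ, F ≠ 0 ∧ ∀ P : Fin n → Fin 2 → ℂ,
    MvPolynomial.eval (fun ij : Fin n × Fin 2 => P ij.1 ij.2) F ≠ 0 → ∀ d : ℕ, Imposes P d w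

/-- The multiplicity `m ≥ 1` is good for every number `n ≥ 10` of points and every degree. -/
def Holds (m : ℕ) : Prop := 1 ≤ m ∧ ∀ n : ℕ, 10 ≤ n → Maximal (fun _ : Fin n => m)

/-- All vectors of `n` positive multiplicities with sum `W` which take at most two consecutive values
`m`, `m + 1` are good in every degree. -/
def Good (n W : ℕ) : Prop :=
  ∀ m : ℕ, 0 < m → ∀ w : Fin n → ℕ, (∀ i, w i = m ∨ w i = m + 1) → ∑ i, w i = W → Maximal w

open Classical in
/-- The bound for the proportion of the bad sums for `n` points. -/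
noncomputable def bad (n : ℕ) : ℝ :=
  if IsSquare n then 0
  else (min (√(n : ℝ) - 3) (2 / 3 + 9 / (4 * √(n : ℝ))) +
    min (√(n : ℝ) - 3) (2 / 3 + 1 / (4 * √(n : ℝ)))) / 2

/-- The derivatives of the consecutive functions `F t` are separated on `[u, v]` and their second derivatives increase. -/
def Spread (ρ u v : ℝ) (F : ℕ → ℝ → ℝ) : Prop :=
  (∀ t, ContDiff ℝ 2 (F t)) ∧ ∃ t₀ : ℕ, ∀ t, t₀ ≤ t → ∀ x ∈ Set.Icc u v,
    (t : ℝ) ^ (ρ - 1) ≤ deriv (F (t + 1)) x - deriv (F t) x ∧
      deriv (deriv (F t)) x ≤ deriv (deriv (F (t + 1))) x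

/-- The number of the members `t` of `D` with `N < t ≤ 2 N` and `p t`. -/
noncomputable def count (D : Set ℕ) (p : ℕ → Prop) (N : ℕ) : ℝ :=
  ({t : ℕ | N < t ∧ t ≤ 2 * N ∧ t ∈ D ∧ p t}.ncard : ℝ)

/-- For every `ε > 0` and all large `N` the set `D` has at least `N ^ (1 - ε)` members `t` with `N < t ≤ 2 N`. -/
def Many (D : Set ℕ) : Prop :=
  ∀ ε : ℝ, 0 < ε → ∀ᶠ N : ℕ in atTop, (N : ℝ) ^ (1 - ε) ≤ count D (fun _ => True) N

/-- If the numbers `x t` are at least `1` for all large `t`, then the multiplicity `⌊x t⌋` is good for all numbers of points and all degrees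
for at least the proportion `1 / 10000 ^ 22` of the members `t` of `D` in `(N, 2 N]`, and for every `n ≥ 10` the sum `⌊x t⌋` of the
multiplicities is not good for at most the proportion `bad n + δ` of them. -/
def Along (D : Set ℕ) (x : ℕ → ℝ) : Prop :=
  (∀ᶠ t : ℕ in atTop, 1 ≤ x t) →
    (∀ᶠ N : ℕ in atTop, 1 / 10000 ^ 22 * count D (fun _ => True) N ≤ count D (fun t => Holds ⌊x t⌋₊) N) ∧
    ∀ n : ℕ, 10 ≤ n → ∀ δ : ℝ, 0 < δ → ∀ᶠ N : ℕ in atTop,
      count D (fun t => ¬ Good n ⌊x t⌋₊) N ≤ (bad n + δ) * count D (fun _ => True) N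

theorem maximal_of {n : ℕ} {w : Fin n → ℕ} (h : Pool.Agent.N141.SG.ExN w) : Maximal w := by
  obtain ⟨F, hF, hF'⟩ := h
  refine ⟨F.map (algebraMap ℚ ℂ), Pool.Agent.H932R3.map_ne_zero_of hF, fun P hP d => ?_⟩
  rw [MvPolynomial.eval_map] at hP
  have h1 := hF' P hP d
  unfold Pool.Agent.H932R3.ExpDim at h1
  unfold Imposes forms
  rw [h1]
  have e : ∑ i, ((w i + 1).choose 2 : ℤ) = ((∑ i, (w i + 1).choose 2 : ℕ) : ℤ) := by
    push_cast
    rfl
  rw [e]
  omega

theorem bad_ten : bad 10 < 0.163 := by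
  have h1 : √((10 : ℕ) : ℝ) < 3.163 := by
    rw [Real.sqrt_lt' (by norm_num)]
    norm_num
  have h0 : ¬ IsSquare 10 := by
    rintro ⟨k, hk⟩
    have : k ≤ 3 := by nlinarith
    interval_cases k <;> omega
  unfold bad
  rw [if_neg h0]
  have h2 := min_le_left (√((10 : ℕ) : ℝ) - 3) (2 / 3 + 9 / (4 * √((10 : ℕ) : ℝ)))
  have h3 := min_le_left (√((10 : ℕ) : ℝ) - 3) (2 / 3 + 1 / (4 * √((10 : ℕ) : ℝ)))
  linarith

theorem holds_of {m : ℕ} (hm : 1 ≤ m) (h : Pool.Agent.N141.SG.Tgt (m : ℕ)) : Holds m :=
  ⟨hm, fun _ hn => maximal_of (w := fun _ => m) (Pool.Agent.N141.SG.every h hm hn)⟩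

theorem good_of {n W : ℕ} (h : Pool.Agent.N141.SG.GoodN n W) : Good n W :=
  fun m hm w hw hsum => maximal_of (h m hm w hw hsum)

theorem along_of {D : Set ℕ} {x : ℕ → ℝ} (h : Pool.Agent.N54.MS.Gen D x) : Along D x := by
  intro hx
  refine ⟨?_, fun n hn δ hδ => ?_⟩
  · filter_upwards [Pool.Agent.N54.MS.tgt_cnt h hx] with N hN
    exact hN.trans (Pool.Agent.N54.MS.cnt_mono D (fun t ht => holds_of ht.1 ht.2) N)
  · filter_upwards [Pool.Agent.N54.MS.near_cnt hn h hx hδ] with N hN
    exact (Pool.Agent.N54.MS.cnt_mono D (fun t ht h1 => ht (good_of h1)) N).trans hN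

/-- **Main result.** For every set `D` with many members and almost all members `x` of the three kinds of families of sequences,
`Along D x` holds. The sets of all integers and of all primes have many members. -/
theorem result :
    (∀ D : Set ℕ, Many D → ∀ ρ : ℝ, 0 < ρ → ρ ≤ 1 →
      (∀ (u v : ℝ) (F : ℕ → ℝ → ℝ), Spread ρ u v F →
        ∀ᵐ ξ : ℝ, ξ ∈ Set.Ioc u v → Along D (fun t => F t ξ)) ∧
      (∀ g c : ℕ → ℝ, (∀ᶠ t : ℕ in atTop, (t : ℝ) ^ (ρ - 1) ≤ g (t + 1) - g t) →
        ∀ᵐ ξ : ℝ, Along D (fun t => ξ * g t + c t)) ∧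
      (∀ (g : ℕ → ℕ) (c : ℕ → ℝ), StrictMono g →
        ∀ᵐ ξ : ℝ, 1 < ξ → Along D (fun t => ξ ^ g t + c t))) ∧
    Many Set.univ ∧ Many {p : ℕ | p.Prime} ∧
    (∀ n : ℕ, 10 ≤ n → bad n < 1) ∧ bad 10 < 0.163 := by
  refine ⟨fun D hD ρ hρ hρ1 => Pool.Agent.N54.MS.three1 hD hρ hρ1 (Along D) fun x hx => along_of hx,
    Pool.Agent.N54.MS.many_univ, Pool.Agent.N54.MS.many_primes, fun n hn =>
    Pool.Agent.N141.SG.badN_lt hn, bad_ten⟩

end Pool.Agent.Results.MP_1dafdd_ag.MetricMultiplicities
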