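import Mathlib
import Pool.Agent.H350R3.MG.PLem
import Pool.Agent.N177.FP.QDim

/-!
# Fat points with one point of arbitrary multiplicity: the failing tuples outside a window

Let `Γ` be a scheme of `k + 1` general fat points of `ℙ^r`: one point `p` of multiplicity `μ ≤ d`
(`μ = 0` is allowed) and `k` points of multiplicities `m i ≥ 1`. If `μ + m i ≥ d + 2` then the line
that joins `p` and the `i`-th point is a multiple base curve of the forms of degree `d`, and
`Γ` fails to impose independent conditions. The `i`-th point imposes at most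
`relLen (m i) = binom (m i + r - 1) r - binom (μ + m i - d - 1 + r - 1) r` conditions on the forms with
the given singularity at `p` (the second binomial is absent when `μ + m i ≤ d + 1`). Let `expected` be
the resulting expected dimension and `S` the sum of the numbers `relLen ν` over the *distinct*
multiplicities `ν` of the `k` points: neither `μ` nor the number of the points enters. We show that the
dimension is `max 0 expected` if `2 |expected| > S (S - 3)`. In this range, `Γ` fails to impose
maximal conditions exactly if `expected > 0` and `μ + m i ≥ d + 2` for some `i`.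

The proof adds the points one by one, starting from `p`, which is the coordinate point `e_z`. If a new
point `x` imposes less conditions than expected on the (nonzero) system `V` defined by the other
points, and if the number of these conditions does not increase when any one of the points other than
`p` is removed, then the forms with leading part at `x` coming from `V` form a space which is
stable under the operators `x_a ∂_b`, `a ≠ z`, corrected by the motion of `x` alone, and it contains
a member of `V` that does not depend on `x`, whose multiplicity at `p` is exactly `μ`: otherwise `V`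
would be stable also under the operators `x_z ∂_b` which lower the multiplicity at `p`. Such a space
contains all the forms of degree `d` with the given multiplicity at `p`.
-/

set_option autoImplicit false

namespace Pool.Agent.Results.MP_1dafdd_ag.OneLargePoint

open MvPolynomial
open scoped LinearAlgebra.Projectivization
open Pool.Agent.H350R3.MG

/-- `V_d(Γ)`: the forms of degree `d` vanishing to order at least `m i` at the `i`-th point. -/
noncomputable def forms {r k : ℕ} (d : ℕ) (m : Fin k → ℕ) (P : Fin k → ℙ ℂ (Fin (r + 1) → ℂ)) :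
    Submodule ℂ (MvPolynomial (Fin (r + 1)) ℂ) :=
  homogeneousSubmodule (Fin (r + 1)) ℂ d ⊓
    Submodule.restrictScalars ℂ (⨅ i, primeIdeal (P i) ^ m i : Ideal (MvPolynomial (Fin (r + 1)) ℂ))

/-- The length `binom (μ + r - 1) r` of a point of multiplicity `μ` of `ℙ^r`. -/
def len (r μ : ℕ) : ℤ := ((μ + r - 1).choose r : ℤ)

/-- The naive count `binom (d + r) r - ∑ i, binom (m i + r - 1) r`. -/
def naive (r : ℕ) {k : ℕ} (d : ℕ) (m : Fin k → ℕ) : ℤ :=
  ((d + r).choose r : ℤ) - ∑ i, len r (m i)

/-- `Γ` imposes maximal conditions in degree `d`. -/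
def ImposesMaximalConditions {r k : ℕ} (d : ℕ) (m : Fin k → ℕ)
    (P : Fin k → ℙ ℂ (Fin (r + 1) → ℂ)) : Prop :=
  (Module.finrank ℂ (forms d m P) : ℤ) = max 0 (naive r d m)

/-- The number of conditions that a point of multiplicity `ν` is expected to impose on the forms of
degree `d` which have multiplicity `μ` at a given point. -/
def relLen (r d μ ν : ℕ) : ℤ := len r ν - len r (μ + ν - (d + 1))

/-- The expected dimension, given the lines through the point of multiplicity `μ`. -/
def expected (r : ℕ) {k : ℕ} (d μ : ℕ) (m : Fin k → ℕ) : ℤ :=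
  ((d + r).choose r : ℤ) - len r μ - ∑ i, relLen r d μ (m i)

/-- The sum of the numbers `relLen` over the distinct multiplicities of the other points. -/
def distinctLength (r : ℕ) {k : ℕ} (d μ : ℕ) (m : Fin k → ℕ) : ℤ :=
  ∑ ν ∈ Finset.univ.image m, relLen r d μ ν

lemma forms_mk {r k d : ℕ} {m : Fin k → ℕ} (hm : ∀ i, m i ≤ d) (v : Fin k → Fin (r + 1) → ℂ)
    (hv : ∀ i, v i ≠ 0) :
    forms d m (fun i => Projectivization.mk ℂ (v i) (hv i)) =
      H350MG.K (H350MG.ptList (fun i => d + 1 - m i)
        (fun x : Fin k × Fin (r + 1) => v x.1 x.2)) d := by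
  unfold forms
  ext F
  rw [Submodule.mem_inf, Submodule.restrictScalars_mem, Submodule.mem_iInf, H350MG.mem_K]
  constructor
  · rintro ⟨h1, h2⟩
    refine ⟨h1, ?_⟩
    intro c hc
    obtain ⟨i, rfl⟩ := H350MG.exists_of_mem_ptList hc
    have h3 := h2 i
    rw [primeIdeal_mk] at h3
    exact (H350MG.mem_pow_iff (hv i) (by have := hm i; omega) h1).1 h3
  · rintro ⟨h1, h2⟩
    refine ⟨h1, fun i => ?_⟩
    rw [primeIdeal_mk, H350MG.mem_pow_iff (hv i) (by have := hm i; omega) h1]
    exact h2 (fun j => v i j, d + 1 - m i)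
      (H350MG.mem_ptList (e := fun i => d + 1 - m i)
        (fun x : Fin k × Fin (r + 1) => v x.1 x.2) i)

lemma len_pos (r : ℕ) {μ : ℕ} (h : 1 ≤ μ) : 1 ≤ len r μ := by
  unfold len
  exact_mod_cast Nat.choose_pos (by omega : r ≤ μ + r - 1)

lemma len_zero {r : ℕ} (hr : 1 ≤ r) : len r 0 = 0 := by
  unfold len
  rw [Nat.choose_eq_zero_of_lt (by omega)]
  rfl

lemma len_nonneg (r μ : ℕ) : 0 ≤ len r μ := by
  unfold len
  positivity

lemma len_succ {r : ℕ} (hr : 1 ≤ r) (t : ℕ) :
    len r (t + 1) = len r t + ((t + r - 1).choose (r - 1) : ℤ) := by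
  unfold len
  obtain ⟨s, rfl⟩ : ∃ s, r = s + 1 := ⟨r - 1, by omega⟩
  have h1 : t + 1 + (s + 1) - 1 = (t + s) + 1 := by omega
  have h2 : t + (s + 1) - 1 = t + s := by omega
  rw [h1, h2, Nat.add_sub_cancel, Nat.choose_succ_succ']
  push_cast
  ring

lemma relLen_succ {r d μ : ℕ} (hr : 1 ≤ r) (hμ : μ ≤ d) (ν : ℕ) :
    relLen r d μ ν ≤ relLen r d μ (ν + 1) := by
  unfold relLen
  rw [len_succ hr ν]
  rcases lt_or_ge (μ + ν) (d + 1) with h | h
  · have h1 : μ + ν - (d + 1) = 0 := by omega
    have h2 : μ + (ν + 1) - (d + 1) = 0 := by omega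
    rw [h1, h2]
    have : (0 : ℤ) ≤ ((ν + r - 1).choose (r - 1) : ℤ) := by positivity
    linarith
  · obtain ⟨t, ht⟩ : ∃ t, μ + ν - (d + 1) = t := ⟨_, rfl⟩
    have h2 : μ + (ν + 1) - (d + 1) = t + 1 := by omega
    rw [ht, h2, len_succ hr t]
    have h3 : ((t + r - 1).choose (r - 1) : ℤ) ≤ ((ν + r - 1).choose (r - 1) : ℤ) := by
      exact_mod_cast Nat.choose_le_choose _ (by omega)
    linarith

lemma relLen_mono {r d μ : ℕ} (hr : 1 ≤ r) (hμ : μ ≤ d) {ν ν' : ℕ} (h : ν ≤ ν') :
    relLen r d μ ν ≤ relLen r d μ ν' := by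
  induction ν', h using Nat.le_induction with
  | base => exact le_rfl
  | succ ν' _ ih => exact ih.trans (relLen_succ hr hμ ν')

lemma relLen_pos {r d μ : ℕ} (hr : 1 ≤ r) (hμ : μ ≤ d) {ν : ℕ} (hν : 1 ≤ ν) :
    1 ≤ relLen r d μ ν := by
  refine le_trans ?_ (relLen_mono hr hμ hν)
  unfold relLen
  have h1 : μ + 1 - (d + 1) = 0 := by omega
  rw [h1, len_zero hr, sub_zero]
  exact len_pos r le_rfl

lemma relLen_eq {r : ℕ} (d μ ν : ℕ) : relLen r d μ ν = Pool.Agent.N177.FP.rL r d μ ν := by
  unfold relLen len Pool.Agent.N177.FP.rL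
  rw [Nat.add_comm ν r, Nat.add_comm μ ν, Nat.add_comm (ν + μ - (d + 1)) r]

lemma relLen_top {r d μ : ℕ} : relLen r d μ (d + 1) = ((d + r).choose r : ℤ) - len r μ := by
  unfold relLen len
  have h1 : d + 1 + r - 1 = d + r := by omega
  have h2 : μ + (d + 1) - (d + 1) = μ := by omega
  rw [h1, h2]

/-- the conditions imposed by the points when they are many, or few, compared to the degree -/
theorem main (r k d μ : ℕ) (hr : 1 ≤ r) (hμ : μ ≤ d) (m : Fin k → ℕ) (hm : ∀ i, 1 ≤ m i) :
    ((∀ i, relLen r d μ (m i) * (relLen r d μ (m i) - 3) +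
        2 * ((relLen r d μ (m i) - 1) *
          ∑ ν ∈ (Finset.univ.image m).filter (m i < ·), relLen r d μ ν) <
          2 * expected r d μ m) →
      Generally (fun P : Fin (k + 1) → ℙ ℂ (Fin (r + 1) → ℂ) =>
        (Module.finrank ℂ (forms d (Fin.cons μ m : Fin (k + 1) → ℕ) P) : ℤ) =
          expected r d μ m)) ∧
    ((∃ i, relLen r d μ (m i) * (relLen r d μ (m i) - 3) +
        ∑ ν ∈ (Finset.univ.image m).erase (m i), relLen r d μ ν * (relLen r d μ ν - 1) <
          -(2 * expected r d μ m)) →
      Generally (fun P : Fin (k + 1) → ℙ ℂ (Fin (r + 1) → ℂ) =>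
        forms d (Fin.cons μ m : Fin (k + 1) → ℕ) P = ⊥)) := by
  by_cases hmd : ∀ i, m i ≤ d
  · obtain ⟨Φ, hΦ0, hΦ⟩ := Pool.Agent.N177.FP.q_gen r k d μ hr hμ m hm hmd (expected r d μ m) (by
      unfold expected
      rw [← relLen_eq, relLen_top]
      congr 1
      exact Finset.sum_congr rfl fun i _ => relLen_eq d μ (m i))
    simp only [← relLen_eq] at hΦ
    have hcons : ∀ i, (Fin.cons μ m : Fin (k + 1) → ℕ) i ≤ d := by
      intro i
      rcases Fin.eq_zero_or_eq_succ i with rfl | ⟨j, rfl⟩
      · exact hμ
      · exact hmd j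
    have hexp : (fun i => d + 1 - (Fin.cons μ m : Fin (k + 1) → ℕ) i) =
        (Fin.cons (d - μ + 1) (fun i : Fin k => d + 1 - m i) : Fin (k + 1) → ℕ) := by
      funext i
      rcases Fin.eq_zero_or_eq_succ i with rfl | ⟨j, rfl⟩
      · rw [Fin.cons_zero, Fin.cons_zero]
        omega
      · rw [Fin.cons_succ, Fin.cons_succ]
    constructor
    · intro h
      refine generally_of_poly Φ hΦ0 fun w hw h4 => ?_
      have h5 := (hΦ _ h4).1 h
      rw [forms_mk hcons w hw, hexp]
      exact h5
    · intro h
      refine generally_of_poly Φ hΦ0 fun w hw h4 => ?_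
      have h5 := (hΦ _ h4).2 h
      have hfin : FiniteDimensional ℂ (forms d (Fin.cons μ m : Fin (k + 1) → ℕ)
          fun i => Projectivization.mk ℂ (w i) (hw i)) :=
        Submodule.finiteDimensional_of_le (S₂ := H350MG.Rj ℂ (Fin (r + 1)) d) inf_le_left
      refine Submodule.finrank_eq_zero.1 ?_
      rw [forms_mk hcons w hw, hexp]
      exact h5
  · push Not at hmd
    obtain ⟨i, hi⟩ := hmd
    have hbot : ∀ (v : Fin (k + 1) → Fin (r + 1) → ℂ) (hv : ∀ i, v i ≠ 0),
        forms d (Fin.cons μ m : Fin (k + 1) → ℕ)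
          (fun i => Projectivization.mk ℂ (v i) (hv i)) = ⊥ := by
      intro v hv
      rw [eq_bot_iff]
      intro F hF
      unfold forms at hF
      rw [Submodule.mem_inf, Submodule.restrictScalars_mem, Submodule.mem_iInf] at hF
      have h2 := hF.2 i.succ
      rw [primeIdeal_mk, Fin.cons_succ] at h2
      rw [Submodule.mem_bot]
      exact H350MG.eq_zero_of_mem_pow hi h2 hF.1
    have hE : expected r d μ m ≤ 0 := by
      unfold expected
      rw [← relLen_top]
      have h3 : relLen r d μ (d + 1) ≤ relLen r d μ (m i) := relLen_mono hr hμ hi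
      have h4 : relLen r d μ (m i) ≤ ∑ i, relLen r d μ (m i) :=
        Finset.single_le_sum (f := fun i => relLen r d μ (m i))
          (fun j _ => (zero_le_one.trans (relLen_pos hr hμ (hm j)))) (Finset.mem_univ i)
      linarith
    constructor
    · intro h
      have h1 := h i
      have h7 := relLen_pos (r := r) (d := d) (μ := μ) hr hμ (hm i)
      have h8 : (0 : ℤ) ≤ (relLen r d μ (m i) - 1) *
          ∑ ν ∈ (Finset.univ.image m).filter (m i < ·), relLen r d μ ν := by
        refine mul_nonneg (by linarith) (Finset.sum_nonneg fun ν hν => ?_)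
        obtain ⟨j, _, rfl⟩ := Finset.mem_image.1 (Finset.mem_filter.1 hν).1
        exact zero_le_one.trans (relLen_pos hr hμ (hm j))
      have h9 : -2 ≤ relLen r d μ (m i) * (relLen r d μ (m i) - 3) := by
        rcases lt_or_ge (relLen r d μ (m i)) 3 with h10 | h10
        · interval_cases relLen r d μ (m i) <;> norm_num
        · nlinarith
      have h10 : expected r d μ m = 0 := by omega
      refine generally_of_poly 1 one_ne_zero fun v hv _ => ?_
      rw [hbot v hv, finrank_bot, h10]
      rfl
    · intro _
      exact generally_of_poly 1 one_ne_zero fun v hv _ => hbot v hv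

lemma expected_eq {r k d μ : ℕ} (m : Fin k → ℕ) :
    expected r d μ m = naive r d (Fin.cons μ m : Fin (k + 1) → ℕ) +
      ∑ i, len r (μ + m i - (d + 1)) := by
  unfold expected naive relLen
  rw [Fin.sum_univ_succ, Finset.sum_sub_distrib]
  simp only [Fin.cons_zero, Fin.cons_succ]
  ring

/-- maximal conditions when the dimension is the expected one -/
lemma maximal_iff {r k d μ : ℕ} (hr : 1 ≤ r) (m : Fin k → ℕ)
    (P : Fin (k + 1) → ℙ ℂ (Fin (r + 1) → ℂ))
    (h : (Module.finrank ℂ (forms d (Fin.cons μ m : Fin (k + 1) → ℕ) P) : ℤ) =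
      max 0 (expected r d μ m)) :
    ¬ ImposesMaximalConditions d (Fin.cons μ m : Fin (k + 1) → ℕ) P ↔
      0 < expected r d μ m ∧ ∃ i, d + 2 ≤ μ + m i := by
  unfold ImposesMaximalConditions
  rw [h]
  have h1 := expected_eq (r := r) (d := d) (μ := μ) m
  have h2 : 0 ≤ ∑ i, len r (μ + m i - (d + 1)) := Finset.sum_nonneg fun i _ => len_nonneg _ _
  constructor
  · intro hne
    have hpos : 0 < expected r d μ m := by
      by_contra hcon
      push Not at hcon
      apply hne
      rw [max_eq_left hcon, max_eq_left (by linarith)]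
    refine ⟨hpos, ?_⟩
    by_contra hcon
    push Not at hcon
    apply hne
    have h3 : ∑ i, len r (μ + m i - (d + 1)) = 0 := by
      refine Finset.sum_eq_zero fun i _ => ?_
      have h4 := hcon i
      have h5 : μ + m i - (d + 1) = 0 := by omega
      rw [h5, len_zero hr]
    rw [h1, h3, add_zero]
  · rintro ⟨hpos, i, hi⟩ heq
    have h3 : 1 ≤ ∑ i, len r (μ + m i - (d + 1)) :=
      (len_pos r (by omega : 1 ≤ μ + m i - (d + 1))).trans
        (Finset.single_le_sum (f := fun i => len r (μ + m i - (d + 1)))
          (fun j _ => len_nonneg _ _) (Finset.mem_univ i))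
    rw [max_eq_right hpos.le] at heq
    rcases le_total (naive r d (Fin.cons μ m : Fin (k + 1) → ℕ)) 0 with h4 | h4
    · rw [max_eq_left h4] at heq
      linarith
    · rw [max_eq_right h4] at heq
      linarith

/-- Let `k + 1` general points of `ℙ^r` be given, one of multiplicity `μ ≤ d` (`μ = 0` is allowed) and
`k` of multiplicities `m i ≥ 1`. Let `S` be the sum of the numbers `relLen ν` over the distinct
multiplicities `ν` of the `k` points. If `2 |expected| > S (S - 3)` then the space of the forms of degree
`d` with these multiplicities has dimension `max 0 expected`, and the fat point scheme fails to impose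
maximal conditions if and only if `expected > 0` and `μ + m i ≥ d + 2` for some `i`.
More precisely the dimension is `expected` if, for every multiplicity `m i`, the number
`2 expected` is greater than `L (L - 3) + 2 (L - 1) ∑ relLen ν`, where `L = relLen (m i)` and the sum is
over the multiplicities `ν > m i`; and there is no form of degree `d` if `- 2 expected` is greater than
`L (L - 3) + ∑ relLen ν (relLen ν - 1)`, the sum being over the multiplicities `ν ≠ m i`, for
some `i`. -/
theorem result (r k d μ : ℕ) (hr : 1 ≤ r) (hμ : μ ≤ d) (m : Fin k → ℕ) (hm : ∀ i, 1 ≤ m i) :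
    (distinctLength r d μ m * (distinctLength r d μ m - 3) < 2 * |expected r d μ m| →
      Generally (fun P : Fin (k + 1) → ℙ ℂ (Fin (r + 1) → ℂ) =>
        (Module.finrank ℂ (forms d (Fin.cons μ m : Fin (k + 1) → ℕ) P) : ℤ) =
          max 0 (expected r d μ m) ∧
        (¬ ImposesMaximalConditions d (Fin.cons μ m : Fin (k + 1) → ℕ) P ↔
          0 < expected r d μ m ∧ ∃ i, d + 2 ≤ μ + m i))) ∧
    ((∀ i, relLen r d μ (m i) * (relLen r d μ (m i) - 3) +
        2 * ((relLen r d μ (m i) - 1) *
          ∑ ν ∈ (Finset.univ.image m).filter (m i < ·), relLen r d μ ν) <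
          2 * expected r d μ m) →
      Generally (fun P : Fin (k + 1) → ℙ ℂ (Fin (r + 1) → ℂ) =>
        (Module.finrank ℂ (forms d (Fin.cons μ m : Fin (k + 1) → ℕ) P) : ℤ) =
          expected r d μ m)) ∧
    ((∃ i, relLen r d μ (m i) * (relLen r d μ (m i) - 3) +
        ∑ ν ∈ (Finset.univ.image m).erase (m i), relLen r d μ ν * (relLen r d μ ν - 1) <
          -(2 * expected r d μ m)) →
      Generally (fun P : Fin (k + 1) → ℙ ℂ (Fin (r + 1) → ℂ) =>
        forms d (Fin.cons μ m : Fin (k + 1) → ℕ) P = ⊥)) := by
  obtain ⟨hA, hB⟩ := main r k d μ hr hμ m hm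
  refine ⟨fun h => ?_, hA, hB⟩
  have hpos : ∀ ν ∈ Finset.univ.image m, 1 ≤ relLen r d μ ν := by
    intro ν hν
    obtain ⟨j, _, rfl⟩ := Finset.mem_image.1 hν
    exact relLen_pos hr hμ (hm j)
  rcases le_total 0 (expected r d μ m) with h0 | h0
  · rw [abs_of_nonneg h0] at h
    obtain ⟨U, hU, hU', hU2⟩ := hA fun i => by
      refine lt_of_le_of_lt ?_ h
      have hi : m i ∈ Finset.univ.image m := Finset.mem_image_of_mem m (Finset.mem_univ i)
      have h1 := hpos _ hi
      obtain ⟨T, hT⟩ : ∃ T, T = ∑ ν ∈ (Finset.univ.image m).filter (m i < ·), relLen r d μ ν :=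
        ⟨_, rfl⟩
      have hT0 : 0 ≤ T := by
        rw [hT]
        exact Finset.sum_nonneg fun ν hν =>
          zero_le_one.trans (hpos _ (Finset.mem_filter.1 hν).1)
      have hS : relLen r d μ (m i) + T ≤ distinctLength r d μ m := by
        unfold distinctLength
        rw [← Finset.add_sum_erase _ _ hi, hT]
        have : (Finset.univ.image m).filter (m i < ·) ⊆ (Finset.univ.image m).erase (m i) := by
          intro ν hν
          rw [Finset.mem_filter] at hν
          exact Finset.mem_erase.2 ⟨by omega, hν.1⟩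
        have h2 := Finset.sum_le_sum_of_subset_of_nonneg (f := fun ν => relLen r d μ ν) this
          (fun ν hν _ => zero_le_one.trans (hpos _ (Finset.mem_of_mem_erase hν)))
        linarith
      rw [← hT]
      obtain ⟨u, hu⟩ : ∃ u, distinctLength r d μ m = relLen r d μ (m i) + T + u :=
        ⟨distinctLength r d μ m - (relLen r d μ (m i) + T), by ring⟩
      have hu0 : 0 ≤ u := by linarith
      rw [hu]
      have h3 : 0 ≤ T * (T - 1) := by
        rcases hT0.lt_or_eq with h4 | h4
        · exact mul_nonneg hT0 (by omega)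
        · rw [← h4]; simp
      have h4 : 0 ≤ u * (2 * (relLen r d μ (m i) + T) + u - 3) := by
        rcases hu0.lt_or_eq with h5 | h5
        · exact mul_nonneg hu0 (by omega)
        · rw [← h5]; simp
      nlinarith
    refine ⟨U, hU, hU', fun P hP => ?_⟩
    have h1 : (Module.finrank ℂ (forms d (Fin.cons μ m : Fin (k + 1) → ℕ) P) : ℤ) =
        max 0 (expected r d μ m) := by
      rw [hU2 P hP, max_eq_right h0]
    exact ⟨h1, maximal_iff hr m P h1⟩
  · rw [abs_of_nonpos h0] at h
    have hk : (Finset.univ.image m).Nonempty := by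
      by_contra hne
      rw [Finset.not_nonempty_iff_eq_empty, Finset.image_eq_empty] at hne
      have h1 : expected r d μ m = relLen r d μ (d + 1) := by
        unfold expected
        rw [hne, relLen_top]
        simp
      have h2 := relLen_pos (r := r) (d := d) (μ := μ) hr hμ (by omega : 1 ≤ d + 1)
      rw [h1] at h0
      omega
    obtain ⟨κ, hκ, hmax⟩ : ∃ κ ∈ Finset.univ.image m, ∀ ν ∈ Finset.univ.image m, ν ≤ κ :=
      ⟨_, Finset.max'_mem _ hk, fun ν hν => Finset.le_max' _ ν hν⟩
    have hκ' := hκ
    obtain ⟨i, _, rfl⟩ := Finset.mem_image.1 hκ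
    obtain ⟨U, hU, hU', hU2⟩ := hB ⟨i, by
      refine lt_of_le_of_lt ?_
        (h.trans_le (by linarith : 2 * -expected r d μ m ≤ -(2 * expected r d μ m)))
      have h1 := hpos _ hκ'
      obtain ⟨T, hT⟩ : ∃ T, T = ∑ ν ∈ (Finset.univ.image m).erase (m i), relLen r d μ ν :=
        ⟨_, rfl⟩
      have hT0 : 0 ≤ T := by
        rw [hT]
        exact Finset.sum_nonneg fun ν hν =>
          zero_le_one.trans (hpos _ (Finset.mem_of_mem_erase hν))
      have hS : distinctLength r d μ m = relLen r d μ (m i) + T := by
        unfold distinctLength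
        rw [← Finset.add_sum_erase _ _ hκ', hT]
      have h2 : ∑ ν ∈ (Finset.univ.image m).erase (m i),
          relLen r d μ ν * (relLen r d μ ν - 1) ≤ T * (relLen r d μ (m i) - 1) := by
        rw [hT, Finset.sum_mul]
        refine Finset.sum_le_sum fun ν hν => ?_
        have h3 := hmax ν (Finset.mem_of_mem_erase hν)
        have h4 := relLen_mono (r := r) hr hμ h3
        have h5 := hpos ν (Finset.mem_of_mem_erase hν)
        exact mul_le_mul_of_nonneg_left (by linarith) (by linarith)
      rw [hS]
      have h3 : 0 ≤ T * (relLen r d μ (m i) + T - 2) := by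
        rcases hT0.lt_or_eq with h4 | h4
        · exact mul_nonneg hT0 (by omega)
        · rw [← h4]; simp
      nlinarith⟩
    refine ⟨U, hU, hU', fun P hP => ?_⟩
    have h1 : (Module.finrank ℂ (forms d (Fin.cons μ m : Fin (k + 1) → ℕ) P) : ℤ) =
        max 0 (expected r d μ m) := by
      rw [hU2 P hP, finrank_bot, max_eq_left h0]
      rfl
    exact ⟨h1, maximal_iff hr m P h1⟩

end Pool.Agent.Results.MP_1dafdd_ag.OneLargePoint
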