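import Mathlib
import Pool.Agent.N388.EFW.Near
import Pool.Agent.N388.EF.TEST2

set_option autoImplicit false

/-!
# Eleven general fat points of multiplicities `m` and `m + 1` in the plane

The case `r = 2`, `k = 11` of the question, multiplicities `w i ∈ {m, m + 1}` with `m ≥ 20`, not all
`m + 1`, `∑ w i = 11 m + s`: the scheme imposes maximal conditions in ALL degrees `d` except possibly
those divisible by three for which `e = (3 + √11) / 2 * (d - √11 m) - s` satisfies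
`√11 (2 d + 3) < 11 + 2 (11 m + s)`, `0 ≤ e`, and `(3 √11 - 9) / 2 ≤ e` or `10 ≤ (10 + 3 √11) e + s`
(for `s = 0` this is `0.4749... ≤ e < 1 / 2`, for `s = 1` it is `0.4511... ≤ e < 0.4523...`). One
nonempty open set of 11-tuples of points serves all degrees.
-/

namespace Pool.Agent.Results.MP_1dafdd_ag.PlaneElevenPoints

open MvPolynomial

/-- Forms of degree `d` vanishing to order at least `w i` at the points `(P i 0 : P i 1 : 1)`. -/
noncomputable def forms {n : ℕ} (P : Fin n → Fin 2 → ℂ) (d : ℕ) (w : Fin n → ℕ) :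
    Submodule ℂ (MvPolynomial (Fin 3) ℂ) :=
  homogeneousSubmodule (Fin 3) ℂ d ⊓
    Submodule.restrictScalars ℂ
      (⨅ i : Fin n, (Ideal.span {X 0 - C (P i 0) * X 2, X 1 - C (P i 1) * X 2} :
        Ideal (MvPolynomial (Fin 3) ℂ)) ^ (w i))

/-- The scheme of the points `P i` with the multiplicities `w i` imposes maximal conditions in the
degree `d`. -/
def Imposes {n : ℕ} (P : Fin n → Fin 2 → ℂ) (d : ℕ) (w : Fin n → ℕ) : Prop :=
  (Module.finrank ℂ ↥(forms P d w) : ℤ) =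
    max 0 (((d + 2).choose 2 : ℤ) - ∑ i, ((w i + 1).choose 2 : ℤ))

theorem imposes_of {n : ℕ} {P : Fin n → Fin 2 → ℂ} {d : ℕ} {w : Fin n → ℕ}
    (h : Pool.Agent.H932R3.ExpDim ℂ w P d) : Imposes P d w := by
  unfold Pool.Agent.H932R3.ExpDim at h
  unfold Imposes forms
  rw [h]
  have e : ∑ i, ((w i + 1).choose 2 : ℤ) = ((∑ i, (w i + 1).choose 2 : ℕ) : ℤ) := by
    push_cast
    rfl
  rw [e]
  omega

theorem result (m s : ℕ) (hm : 20 ≤ m) (w : Fin 11 → ℕ) (hw : ∀ i, w i = m ∨ w i = m + 1)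
    (hi : ∃ i, w i = m) (hs : ∑ i, w i = 11 * m + s) :
    ∃ F : MvPolynomial (Fin 11 × Fin 2) ℂ, F ≠ 0 ∧
      ∀ P : Fin 11 → Fin 2 → ℂ, eval (fun ij : Fin 11 × Fin 2 => P ij.1 ij.2) F ≠ 0 →
        ∀ (d : ℕ) (e : ℝ), e = (3 + √11) / 2 * (d - √11 * m) - s →
          ¬ (3 ∣ d ∧ √11 * (2 * d + 3) < 11 + 2 * (11 * m + s) ∧ 0 ≤ e ∧
            ((3 * √11 - 9) / 2 ≤ e ∨ 10 ≤ (10 + 3 * √11) * e + s)) →
          Imposes P d w := by
  obtain ⟨F, hF, hF'⟩ := N388.EFW.expDim_near11 N388.EF.t_TEST2 hm w hw hi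
  refine ⟨F.map (algebraMap ℚ ℂ), H932R3.map_ne_zero_of hF, fun P hP d e he hd => ?_⟩
  rw [MvPolynomial.eval_map] at hP
  exact imposes_of (hF' P hP d s e hs he hd)

end Pool.Agent.Results.MP_1dafdd_ag.PlaneElevenPoints
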