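import Mathlib
import Pool.Agent.N141.SG.Near
import Pool.Agent.N141.SG.Seq6

set_option autoImplicit false

/-!
# The plane: near-uniform schemes with the sum of the multiplicities in an arbitrary long interval

Let `n ≥ 10` and `δ > 0`. There is a `K₀` such that in EVERY interval `(M, M + K]` of length `K ≥ K₀`
all but at most `(bad n + δ) K` integers `W` have the following property: all schemes of `n` general
points with multiplicities `m`, `m + 1` and with sum of the multiplicities `W` impose maximal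
conditions in every degree; `bad n < 1`, `bad n = 0` if `n` is a square and `bad 10 < 0.163`.
-/

namespace Pool.Agent.Results.MP_1dafdd_ag.PlaneNearUniformLongIntervals

open MvPolynomial Filter

/-- Forms of degree `d` vanishing to order at least `w i` at the points `(P i 0 : P i 1 : 1)`. -/
noncomputable def forms {n : ℕ} (P : Fin n → Fin 2 → ℂ) (d : ℕ) (w : Fin n → ℕ) :
    Submodule ℂ (MvPolynomial (Fin 3) ℂ) :=
  homogeneousSubmodule (Fin 3) ℂ d ⊓
    Submodule.restrictScalars ℂ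
      (⨅ i : Fin n, (Ideal.span {X 0 - C (P i 0) * X 2, X 1 - C (P i 1) * X 2} :
        Ideal (MvPolynomial (Fin 3) ℂ)) ^ (w i))

/-- The scheme of the points `P i` with the multiplicities `w i` imposes maximal conditions in the
degree `d`. -/
def Imposes {n : ℕ} (P : Fin n → Fin 2 → ℂ) (d : ℕ) (w : Fin n → ℕ) : Prop :=
  (Module.finrank ℂ ↥(forms P d w) : ℤ) =
    max 0 (((d + 2).choose 2 : ℤ) - ∑ i, ((w i + 1).choose 2 : ℤ))

/-- For general points (one nonempty open set for all degrees) the scheme with the multiplicities `w`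
imposes maximal conditions in every degree. -/
def Maximal {n : ℕ} (w : Fin n → ℕ) : Prop :=
  ∃ F : MvPolynomial (Fin n × Fin 2) ℂ, F ≠ 0 ∧ ∀ P : Fin n → Fin 2 → ℂ,
    MvPolynomial.eval (fun ij : Fin n × Fin 2 => P ij.1 ij.2) F ≠ 0 → ∀ d : ℕ, Imposes P d w

/-- All vectors of `n` positive multiplicities with sum `W` which take at most two consecutive values
`m`, `m + 1` are good in every degree. -/
def Good (n W : ℕ) : Prop :=
  ∀ m : ℕ, 0 < m → ∀ w : Fin n → ℕ, (∀ i, w i = m ∨ w i = m + 1) → ∑ i, w i = W → Maximal w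

open Classical in
/-- The bound for the proportion of the bad sums for `n` points. -/
noncomputable def bad (n : ℕ) : ℝ :=
  if IsSquare n then 0
  else (min (√(n : ℝ) - 3) (2 / 3 + 9 / (4 * √(n : ℝ))) +
    min (√(n : ℝ) - 3) (2 / 3 + 1 / (4 * √(n : ℝ)))) / 2

theorem maximal_of {n : ℕ} {w : Fin n → ℕ} (h : Pool.Agent.N141.SG.ExN w) : Maximal w := by
  obtain ⟨F, hF, hF'⟩ := h
  refine ⟨F.map (algebraMap ℚ ℂ), Pool.Agent.H932R3.map_ne_zero_of hF, fun P hP d => ?_⟩
  rw [MvPolynomial.eval_map] at hP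
  have h1 := hF' P hP d
  unfold Pool.Agent.H932R3.ExpDim at h1
  unfold Imposes forms
  rw [h1]
  have e : ∑ i, ((w i + 1).choose 2 : ℤ) = ((∑ i, (w i + 1).choose 2 : ℕ) : ℤ) := by
    push_cast
    rfl
  rw [e]
  omega

theorem bad_ten : bad 10 < 0.163 := by
  have h1 : √((10 : ℕ) : ℝ) < 3.163 := by
    rw [Real.sqrt_lt' (by norm_num)]
    norm_num
  have h0 : ¬ IsSquare 10 := by
    rintro ⟨k, hk⟩
    have : k ≤ 3 := by nlinarith
    interval_cases k <;> omega
  unfold bad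
  rw [if_neg h0]
  have h2 := min_le_left (√((10 : ℕ) : ℝ) - 3) (2 / 3 + 9 / (4 * √((10 : ℕ) : ℝ)))
  have h3 := min_le_left (√((10 : ℕ) : ℝ) - 3) (2 / 3 + 1 / (4 * √((10 : ℕ) : ℝ)))
  linarith

theorem good_of {n W : ℕ} (h : Pool.Agent.N141.SG.GoodN n W) : Good n W :=
  fun m hm w hw hsum => maximal_of (h m hm w hw hsum)

/-- counting in subsets -/
theorem ncard_le {s : Finset ℕ} {p q : ℕ → Prop} (h : ∀ n ∈ s, p n → q n) :
    ({n : ℕ | n ∈ s ∧ p n}.ncard : ℝ) ≤ ({n : ℕ | n ∈ s ∧ q n}.ncard : ℝ) := by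
  have h1 : {n : ℕ | n ∈ s ∧ p n} ⊆ {n : ℕ | n ∈ s ∧ q n} := fun n hn => ⟨hn.1, h n hn.1 hn.2⟩
  exact_mod_cast Set.ncard_le_ncard h1 ((Finset.finite_toSet s).subset fun n hn => hn.1)

/-- **Main result.** -/
theorem result :
    (∀ n : ℕ, 10 ≤ n → ∀ δ : ℝ, 0 < δ → ∃ K₀ : ℕ, ∀ K : ℕ, K₀ ≤ K → ∀ M : ℕ,
      ({W : ℕ | W ∈ Finset.Ioc M (M + K) ∧ ¬ Good n W}.ncard : ℝ) ≤ (bad n + δ) * (K : ℝ)) ∧
    (∀ n : ℕ, 10 ≤ n → bad n < 1) ∧ bad 10 < 0.163 := by
  refine ⟨fun n hn δ hδ => ?_, fun n hn => Pool.Agent.N141.SG.badN_lt hn, bad_ten⟩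
  obtain ⟨K₀, h⟩ := Pool.Agent.N141.SG.near_long hn hδ
  exact ⟨K₀, fun K hK M => (ncard_le fun W _ hW h1 => hW (good_of h1)).trans (h K hK M)⟩

end Pool.Agent.Results.MP_1dafdd_ag.PlaneNearUniformLongIntervals
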